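import Pool.Agent.Lib.MP_cb9986_co.SQ.All

set_option autoImplicit false

open Finset

namespace Pool.Agent.Results.MP_cb9986_co.CompletionQuarter

/-- `L` is a partial Latin square of order `n`: no symbol occurs twice in a row or in a column. -/
def PartialLatin {n : ℕ} (L : Fin n → Fin n → Option (Fin n)) : Prop :=
  (∀ r c c' s, L r c = some s → L r c' = some s → c = c') ∧
  (∀ r r' c s, L r c = some s → L r' c = some s → r = r')

/-- Each row, each column and each symbol of `L` is used at most `d` times. -/
def UsedAtMost {n : ℕ} (d : ℝ) (L : Fin n → Fin n → Option (Fin n)) : Prop :=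
  (∀ r : Fin n, ((univ.filter fun c : Fin n => (L r c).isSome).card : ℝ) ≤ d) ∧
  (∀ c : Fin n, ((univ.filter fun r : Fin n => (L r c).isSome).card : ℝ) ≤ d) ∧
  (∀ s : Fin n, ((univ.filter fun p : Fin n × Fin n => L p.1 p.2 = some s).card : ℝ) ≤ d)

/-- `L` can be completed to a Latin square of order `n`. -/
def Completable {n : ℕ} (L : Fin n → Fin n → Option (Fin n)) : Prop :=
  ∃ M : Fin n → Fin n → Fin n, (∀ r, Function.Injective (M r)) ∧
    (∀ c, Function.Injective fun r => M r c) ∧ ∀ r c s, L r c = some s → M r c = s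

/-- For every `ε > 0` every sufficiently large partial Latin square in which each row, column and
symbol is used at most `(1/4 - ε) n` times can be completed. -/
theorem result (ε : ℝ) (hε : 0 < ε) : ∃ n₀ : ℕ, ∀ n : ℕ, n₀ ≤ n →
    ∀ L : Fin n → Fin n → Option (Fin n), PartialLatin L → UsedAtMost ((1 / 4 - ε) * n) L →
      Completable L := by
  obtain ⟨n₀, h⟩ := Pool.Agent.Lib.MP_cb9986_co.SQ.pls_all ε hε
  refine ⟨n₀, fun n hn L hL hU => ?_⟩
  exact h n hn L hL.1 hL.2 hU.1 hU.2.1 hU.2.2

end Pool.Agent.Results.MP_cb9986_co.CompletionQuarter
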