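import Pool.Agent.Lib.MP_cb9986_co.FNW.Quarter
import Pool.Agent.Lib.MP_cb9986_co.RatFam

set_option autoImplicit false

open Finset

namespace Pool.Agent.Results.MP_cb9986_co.FractionalQuarter

open Classical in
/-- A locally balanced tripartite graph with three classes (rows, columns, symbols) of size `n`:
`E`, `F`, `G` are its row-column, column-symbol and symbol-row edges, and every vertex has equally
many neighbours in the two other classes, namely at least `3 * n / 4`. -/
structure DenseBalanced (n : ℕ) (E F G : Fin n → Fin n → Prop) : Prop where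
  row : ∀ r, (univ.filter fun c => E r c).card = (univ.filter fun s => G s r).card
  col : ∀ c, (univ.filter fun r => E r c).card = (univ.filter fun s => F c s).card
  sym : ∀ s, (univ.filter fun c => F c s).card = (univ.filter fun r => G s r).card
  rowDeg : ∀ r, 3 * n ≤ 4 * (univ.filter fun c => E r c).card
  colDeg : ∀ c, 3 * n ≤ 4 * (univ.filter fun s => F c s).card
  symDeg : ∀ s, 3 * n ≤ 4 * (univ.filter fun r => G s r).card

/-- `w` is a rational fractional triangle decomposition: nonnegative weights on the triangles such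
that the triangles at each edge have total weight one. -/
structure FractionalTriangleDecomposition (n : ℕ) (E F G : Fin n → Fin n → Prop)
    (w : Fin n → Fin n → Fin n → ℚ) : Prop where
  nonneg : ∀ r c s, 0 ≤ w r c s
  triangle : ∀ r c s, w r c s ≠ 0 → E r c ∧ F c s ∧ G s r
  edgeE : ∀ r c, E r c → ∑ s, w r c s = 1
  edgeF : ∀ c s, F c s → ∑ r, w r c s = 1
  edgeG : ∀ s r, G s r → ∑ c, w r c s = 1

open Pool.Agent.Lib.MP_cb9986_co in
theorem result (n : ℕ) (E F G : Fin n → Fin n → Prop) (h : DenseBalanced n E F G) :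
    ∃ w : Fin n → Fin n → Fin n → ℚ, FractionalTriangleDecomposition n E F G w := by
  classical
  set g0 : W n := fun r c => if E r c then 1 else 0 with hg0
  set g1 : W n := fun c s => if F c s then 1 else 0 with hg1
  set g2 : W n := fun s r => if G s r then 1 else 0 with hg2
  have z : ∀ (P : Fin n → Fin n → Prop) (x y : Fin n),
      (if P x y then (1 : ℝ) else 0) = 0 ∨ (if P x y then (1 : ℝ) else 0) = 1 := by
    intro P x y; split_ifs <;> simp
  have hdiv : 4 * ((n : ℝ) / 4) ≤ n := by linarith
  have deg : ∀ d : ℕ, 3 * n ≤ 4 * d → (n : ℝ) - (n : ℝ) / 4 ≤ d := by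
    intro d hd
    have h2 : 3 * (n : ℝ) ≤ 4 * (d : ℝ) := by exact_mod_cast hd
    linarith
  have H : Hyp ((n : ℝ) / 4) g0 g1 g2 := by
    refine ⟨z E, z F, z G, ?_, ?_, ?_, ?_, ?_, ?_⟩
    · intro r
      simp only [hg0, hg2, Finset.sum_boole]
      exact_mod_cast (h.row r).symm
    · intro c
      simp only [hg0, hg1, Finset.sum_boole]
      exact_mod_cast h.col c
    · intro s
      simp only [hg1, hg2, Finset.sum_boole]
      exact_mod_cast h.sym s
    · intro r
      simp only [hg0, Finset.sum_boole]
      exact deg _ (h.rowDeg r)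
    · intro c
      simp only [hg1, Finset.sum_boole]
      exact deg _ (h.colDeg c)
    · intro s
      simp only [hg2, Finset.sum_boole]
      exact deg _ (h.symDeg s)
  obtain ⟨w, hw⟩ := quarter_decomp H hdiv
  obtain ⟨y, y0, y1, y2, y3, y4⟩ := rat_family (ι := Fin n × Fin n × Fin n) n
    (fun p => w p.1 p.2.1 p.2.2) (fun p => hw.nonneg _ _ _)
  refine ⟨fun r c s => y (r, c, s), fun r c s => y0 _, ?_, ?_, ?_, ?_⟩
  · intro r c s hne
    by_contra hcon
    apply hne
    refine y2 (r, c, s) (hw.dead r c s ?_)
    by_cases h0 : E r c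
    · by_cases h1 : F c s
      · by_cases h2 : G s r
        · exact absurd ⟨h0, h1, h2⟩ hcon
        · exact Or.inr (Or.inr (by simp [hg2, h2]))
      · exact Or.inr (Or.inl (by simp [hg1, h1]))
    · exact Or.inl (by simp [hg0, h0])
  · intro r c hrc
    exact y4 (fun s => (r, c, s)) (hw.s0 r c (by simp [hg0, hrc]))
  · intro c s hcs
    exact y4 (fun r => (r, c, s)) (hw.s1 c s (by simp [hg1, hcs]))
  · intro s r hsr
    exact y4 (fun c => (r, c, s)) (hw.s2 s r (by simp [hg2, hsr]))

end Pool.Agent.Results.MP_cb9986_co.FractionalQuarter
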