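import Pool.Agent.Lib.MP_cb9986_co.FNW.PlsQ

set_option autoImplicit false

open Finset

namespace Pool.Agent.Results.MP_cb9986_co.InflationQuarter

/-- `L` is a partial Latin square of order `n`: no symbol occurs twice in a row or in a column. -/
def PartialLatin {n : ℕ} (L : Fin n → Fin n → Option (Fin n)) : Prop :=
  (∀ r c c' s, L r c = some s → L r c' = some s → c = c') ∧
  (∀ r r' c s, L r c = some s → L r' c = some s → r = r')

/-- Each row, each column and each symbol of `L` is used at most `n / 4` times. -/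
def UsedAtMostQuarter {n : ℕ} (L : Fin n → Fin n → Option (Fin n)) : Prop :=
  (∀ r : Fin n, 4 * (univ.filter fun c : Fin n => (L r c).isSome).card ≤ n) ∧
  (∀ c : Fin n, 4 * (univ.filter fun r : Fin n => (L r c).isSome).card ≤ n) ∧
  (∀ s : Fin n, 4 * (univ.filter fun p : Fin n × Fin n => L p.1 p.2 = some s).card ≤ n)

/-- `P` is an `m`-inflation of `L`: every empty cell of `L` is replaced by an empty `m × m` block,
and every cell of `L` filled with `s` by some Latin square of order `m` on the symbols `(s, ·)`. -/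
def Inflation {n : ℕ} (L : Fin n → Fin n → Option (Fin n)) (m : ℕ)
    (P : Fin n × Fin m → Fin n × Fin m → Option (Fin n × Fin m)) : Prop :=
  (∀ r c i j, L r c = none → P (r, i) (c, j) = none) ∧
  (∀ r c s, L r c = some s → ∃ Q : Fin m → Fin m → Fin m,
    (∀ i, Function.Injective (Q i)) ∧ (∀ j, Function.Injective fun i => Q i j) ∧
    ∀ i j, P (r, i) (c, j) = some (s, Q i j))

/-- `P` can be completed to a Latin square on the same rows, columns and symbols. -/
def Completable {X : Type} (P : X → X → Option X) : Prop :=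
  ∃ M : X → X → X, (∀ r, Function.Injective (M r)) ∧ (∀ c, Function.Injective fun r => M r c) ∧
    ∀ r c s, P r c = some s → M r c = s

private theorem compl {n : ℕ} {L : Fin n → Fin n → Option (Fin n)} {m : ℕ} (hm : 0 < m)
    (hA : ∃ A : Fin n → Fin n → Fin n → ℕ,
      (∀ r c, ∑ s, A r c s = m) ∧ (∀ r s, ∑ c, A r c s = m) ∧ (∀ c s, ∑ r, A r c s = m) ∧
      ∀ r c s, L r c = some s → A r c s = m)
    (P : Fin n × Fin m → Fin n × Fin m → Option (Fin n × Fin m)) (hInf : Inflation L m P) :
    Completable P := by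
  classical
  obtain ⟨A, a1, a2, a3, a4⟩ := hA
  have hQ : ∀ r c, ∃ Q : Fin m → Fin m → Fin m, ∀ s, L r c = some s →
      (∀ i, Function.Injective (Q i)) ∧ (∀ j, Function.Injective fun i => Q i j) ∧
      ∀ i j, P (r, i) (c, j) = some (s, Q i j) := by
    intro r c
    by_cases h : ∃ s, L r c = some s
    · obtain ⟨s, hs⟩ := h
      obtain ⟨Q, q⟩ := hInf.2 r c s hs
      refine ⟨Q, fun s' hs' => ?_⟩
      rw [hs] at hs'
      rw [← Option.some.inj hs']
      exact q
    · exact ⟨fun i _ => i, fun s hs => absurd ⟨s, hs⟩ h⟩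
  choose Q q using hQ
  obtain ⟨M, M1, M2, M3⟩ := Pool.Agent.Lib.MP_cb9986_co.inflate hm A a1 a2 a3 a4 Q
    (fun r c s h => ⟨(q r c s h).1, (q r c s h).2.1⟩)
  refine ⟨M, M1, M2, ?_⟩
  rintro ⟨r, i⟩ ⟨c, j⟩ t ht
  cases hrc : L r c with
  | none =>
    rw [hInf.1 r c i j hrc] at ht
    exact absurd ht (by simp)
  | some s =>
    rw [M3 r c s i j hrc]
    rw [(q r c s hrc).2.2 i j] at ht
    exact Option.some.inj ht

/-- **The bound `n / 4` of Daykin and Häggkvist for inflated partial Latin squares.** -/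
theorem result (n : ℕ) :
    ∃ m₀ : ℕ, 0 < m₀ ∧ ∀ m : ℕ, 0 < m → m₀ ∣ m →
      ∀ L : Fin n → Fin n → Option (Fin n), PartialLatin L → UsedAtMostQuarter L →
        ∀ P : Fin n × Fin m → Fin n × Fin m → Option (Fin n × Fin m),
          Inflation L m P → Completable P := by
  obtain ⟨m₀, h0, h1⟩ := Pool.Agent.Lib.MP_cb9986_co.den_quarter_all n
  refine ⟨m₀, h0, fun m hm hd L hL hU P hInf => compl hm (h1 L hL ?_ m hd) P hInf⟩
  refine ⟨fun r => ?_, fun c => ?_, fun s => ?_⟩
  · rw [Nat.le_div_iff_mul_le (by norm_num), mul_comm]; exact hU.1 r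
  · rw [Nat.le_div_iff_mul_le (by norm_num), mul_comm]; exact hU.2.1 c
  · rw [Nat.le_div_iff_mul_le (by norm_num), mul_comm]; exact hU.2.2 s

end Pool.Agent.Results.MP_cb9986_co.InflationQuarter
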